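import Mathlib
import Pool.Agent.Helper359.NIMain

set_option autoImplicit false

namespace Pool.Agent.Results.MP_aef148_an.NonseparableCounterexample

open Pool.Agent.Helper359.NI

theorem not_separable_H2 : ¬ TopologicalSpace.SeparableSpace H2 := by
  classical
  intro hsep
  have hdist : ∀ r s : ℝ, r ≠ s →
      1 ≤ ‖(lp.single 2 r (1 : ℝ) : H2) - lp.single 2 s (1 : ℝ)‖ := by
    intro r s hrs
    have h1 := lp.norm_apply_le_norm (p := 2) (by simp)
      ((lp.single 2 r (1 : ℝ) : H2) - lp.single 2 s (1 : ℝ)) r
    rw [lp.coeFn_sub, Pi.sub_apply, lp.single_apply_self, lp.single_apply_ne _ _ _ hrs] at h1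
    simpa using h1
  have hdisj : (Set.univ : Set ℝ).PairwiseDisjoint
      fun r => Metric.ball (lp.single 2 r (1 : ℝ) : H2) (1 / 2) := by
    intro r _ s _ hrs
    rw [Function.onFun, Set.disjoint_left]
    intro v hv hv'
    rw [Metric.mem_ball] at hv hv'
    have h1 := hdist r s hrs
    rw [← dist_eq_norm] at h1
    have h2 := dist_triangle (lp.single 2 r (1 : ℝ) : H2) v (lp.single 2 s (1 : ℝ))
    rw [dist_comm v] at hv
    linarith
  have hcount := hdisj.countable_of_isOpen (fun _ _ => Metric.isOpen_ball)
    (fun r _ => ⟨_, Metric.mem_ball_self (by norm_num)⟩)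
  exact Cardinal.not_countable_real hcount

theorem not_finite_L1 : ¬ FiniteDimensional ℝ L1 := by
  intro hfin
  have hli : LinearIndependent ℝ (fun n : ℕ => (lp.single 1 n 1 : L1)) := by
    rw [linearIndependent_iff']
    intro s g hg i hi
    have h1 := congrArg (coord i) hg
    rw [map_sum, map_zero, Finset.sum_eq_single i] at h1
    · rw [map_smul, coord_apply, lp.single_apply_self] at h1
      simpa using h1
    · intro j _ hji
      rw [map_smul, coord_apply, lp.single_apply_ne _ _ _ hji.symm, smul_zero]
    · intro h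
      exact absurd hi h
  exact Module.Finite.not_linearIndependent_of_infinite _ hli

/-- the subspace `ℓ₁ × 0` of `ℓ₁ × ℓ₂(ℝ)` -/
noncomputable def Y : Submodule ℝ (L1 × H2) := (ContinuousLinearMap.snd ℝ L1 H2).ker

theorem mem_Y (x : L1 × H2) : x ∈ Y ↔ x.2 = 0 := by
  simp [Y]

/-- the identification of `ℓ₁ × 0` with `ℓ₁` -/
noncomputable def equivY : Y ≃L[ℝ] L1 :=
  ContinuousLinearEquiv.equivOfInverse ((ContinuousLinearMap.fst ℝ L1 H2).comp Y.subtypeL)
    ((ContinuousLinearMap.inl ℝ L1 H2).codRestrict Y (fun v => by rw [mem_Y]; simp))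
    (by
      rintro ⟨x, hx⟩
      rw [mem_Y] at hx
      apply Subtype.ext
      ext1
      · simp
      · simp [hx])
    (by
      intro v
      simp)

/-- there are a real Banach space and a closed infinite dimensional subspace of it that can be
renormed with numerical index one, while the whole space cannot -/
theorem result : ∃ (X : Type) (_ : NormedAddCommGroup X) (_ : NormedSpace ℝ X)
    (_ : CompleteSpace X) (Y : Submodule ℝ X), IsClosed (Y : Set X) ∧
      ¬ FiniteDimensional ℝ Y ∧ RenormableIndexOne ℝ Y ∧ ¬ RenormableIndexOne ℝ X := by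
  refine ⟨L1 × H2, inferInstance, inferInstance, inferInstance, Y, ?_, ?_, ?_, ?_⟩
  · exact (ContinuousLinearMap.snd ℝ L1 H2).isClosed_ker
  · intro h
    exact not_finite_L1 (equivY.toLinearEquiv.finiteDimensional)
  · exact ⟨L1, inferInstance, inferInstance, ⟨equivY⟩, index_L1⟩
  · rintro ⟨E, _, _, ⟨e⟩, hE⟩
    exact no_index_one hE e not_separable_H2

end Pool.Agent.Results.MP_aef148_an.NonseparableCounterexample
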