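import Mathlib

set_option autoImplicit false

open Filter Topology

namespace Pool.Agent.Results.MP_aef148_an.Subspaces

noncomputable section

/-- Numerical radius of a bounded operator on a real normed space. -/
def numRadius (X : Type*) [NormedAddCommGroup X] [NormedSpace ℝ X] (T : X →L[ℝ] X) : ℝ :=
  sSup {r : ℝ | ∃ (x : X) (f : X →L[ℝ] ℝ), ‖x‖ = 1 ∧ ‖f‖ = 1 ∧ f x = 1 ∧ r = |f (T x)|}

/-- Numerical index of a real normed space. -/
def numIndex (X : Type*) [NormedAddCommGroup X] [NormedSpace ℝ X] : ℝ :=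
  sInf {r : ℝ | ∃ T : X →L[ℝ] X, ‖T‖ = 1 ∧ r = numRadius X T}

/-- The set of numerical indices of all equivalent norms on `X`; an equivalent norm on `X` is
presented as a normed space `Z` together with a linear homeomorphism `e` from `X` onto `Z`
(the equivalent norm is `x ↦ ‖e x‖`). -/
def renormIndices (X : Type) [NormedAddCommGroup X] [NormedSpace ℝ X] : Set ℝ :=
  {r : ℝ | ∃ (Z : Type) (_ : NormedAddCommGroup Z) (_ : NormedSpace ℝ Z) (_ : X ≃L[ℝ] Z),
    r = numIndex Z}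

section general

variable {Z : Type*} [NormedAddCommGroup Z] [NormedSpace ℝ Z]

lemma bdd_numRadius (T : Z →L[ℝ] Z) :
    BddAbove {r : ℝ | ∃ (x : Z) (f : Z →L[ℝ] ℝ), ‖x‖ = 1 ∧ ‖f‖ = 1 ∧ f x = 1 ∧
      r = |f (T x)|} := by
  refine ⟨‖T‖, ?_⟩
  rintro r ⟨x, f, hx, hf, -, rfl⟩
  calc |f (T x)| = ‖f (T x)‖ := rfl
    _ ≤ ‖f‖ * ‖T x‖ := f.le_opNorm _
    _ = ‖T x‖ := by rw [hf, one_mul]
    _ ≤ ‖T‖ * ‖x‖ := T.le_opNorm _
    _ = ‖T‖ := by rw [hx, mul_one]

lemma numRadius_nonneg (T : Z →L[ℝ] Z) : 0 ≤ numRadius Z T := by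
  apply Real.sSup_nonneg
  rintro r ⟨x, f, -, -, -, rfl⟩
  exact abs_nonneg _

lemma numRadius_le (T : Z →L[ℝ] Z) : numRadius Z T ≤ ‖T‖ := by
  apply Real.sSup_le _ (norm_nonneg _)
  rintro r ⟨x, f, hx, hf, -, rfl⟩
  calc |f (T x)| = ‖f (T x)‖ := rfl
    _ ≤ ‖f‖ * ‖T x‖ := f.le_opNorm _
    _ = ‖T x‖ := by rw [hf, one_mul]
    _ ≤ ‖T‖ * ‖x‖ := T.le_opNorm _
    _ = ‖T‖ := by rw [hx, mul_one]

lemma numIndex_le (T : Z →L[ℝ] Z) (hT : ‖T‖ = 1) : numIndex Z ≤ numRadius Z T := by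
  apply csInf_le
  · refine ⟨0, ?_⟩
    rintro r ⟨S, -, rfl⟩
    exact numRadius_nonneg S
  · exact ⟨T, hT, rfl⟩

/-- Consequence of numerical index one for rank-one operators. -/
lemma propA (h : numIndex Z = 1) (g : Z →L[ℝ] ℝ) (hg : g ≠ 0) (y : Z) (hy : ‖y‖ = 1)
    {δ τ : ℝ} (hδ : 0 < δ) (hτ : 0 < τ) :
    ∃ (x : Z) (f : Z →L[ℝ] ℝ), ‖x‖ = 1 ∧ ‖f‖ = 1 ∧ f x = 1 ∧ ‖g‖ - δ < |g x| ∧
      1 - τ < |f y| := by
  have hg0 : 0 < ‖g‖ := norm_pos_iff.mpr hg
  set T : Z →L[ℝ] Z := ContinuousLinearMap.smulRight (‖g‖⁻¹ • g) y with hT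
  have hTn : ‖T‖ = 1 := by
    rw [hT, ContinuousLinearMap.norm_smulRight_apply, hy, norm_smul, norm_inv, norm_norm,
      inv_mul_cancel₀ hg0.ne', one_mul]
  have h1 : 1 ≤ numRadius Z T := h ▸ numIndex_le T hTn
  set κ : ℝ := min (δ / ‖g‖) τ with hκ
  have hκ0 : 0 < κ := lt_min (by positivity) hτ
  have hne : {r : ℝ | ∃ (x : Z) (f : Z →L[ℝ] ℝ), ‖x‖ = 1 ∧ ‖f‖ = 1 ∧ f x = 1 ∧
      r = |f (T x)|}.Nonempty := by
    obtain ⟨f, hf1, hf2⟩ := exists_dual_vector ℝ y (by rw [hy]; norm_num)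
    exact ⟨_, y, f, hy, hf1, by rw [hf2, hy]; simp, rfl⟩
  obtain ⟨r, ⟨x, f, hx, hf, hfx, rfl⟩, hr⟩ := exists_lt_of_lt_csSup hne
    (show 1 - κ < sSup _ from lt_of_lt_of_le (by linarith) h1)
  refine ⟨x, f, hx, hf, hfx, ?_, ?_⟩
  · have e1 : |f (T x)| = ‖g‖⁻¹ * |g x| * |f y| := by
      simp only [hT, ContinuousLinearMap.smulRight_apply, _root_.smul_apply,
        map_smul, smul_eq_mul, abs_mul, abs_inv, abs_norm]
    have hfy : |f y| ≤ 1 := by
      calc |f y| = ‖f y‖ := rfl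
        _ ≤ ‖f‖ * ‖y‖ := f.le_opNorm _
        _ = 1 := by rw [hf, hy, one_mul]
    rw [e1] at hr
    have h2 : ‖g‖⁻¹ * |g x| * |f y| ≤ ‖g‖⁻¹ * |g x| := by
      apply mul_le_of_le_one_right (by positivity) hfy
    have h3 : 1 - δ / ‖g‖ < ‖g‖⁻¹ * |g x| := by
      have : κ ≤ δ / ‖g‖ := min_le_left _ _
      linarith
    have h4 : ‖g‖ * (1 - δ / ‖g‖) < ‖g‖ * (‖g‖⁻¹ * |g x|) := mul_lt_mul_of_pos_left h3 hg0
    have h5 : ‖g‖ * (1 - δ / ‖g‖) = ‖g‖ - δ := by field_simp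
    have h6 : ‖g‖ * (‖g‖⁻¹ * |g x|) = |g x| := by field_simp
    rw [h5, h6] at h4
    exact h4
  · have e1 : |f (T x)| = ‖g‖⁻¹ * |g x| * |f y| := by
      simp only [hT, ContinuousLinearMap.smulRight_apply, _root_.smul_apply,
        map_smul, smul_eq_mul, abs_mul, abs_inv, abs_norm]
    have hgx : ‖g‖⁻¹ * |g x| ≤ 1 := by
      have : |g x| ≤ ‖g‖ := by
        calc |g x| = ‖g x‖ := rfl
          _ ≤ ‖g‖ * ‖x‖ := g.le_opNorm _
          _ = ‖g‖ := by rw [hx, mul_one]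
      rw [inv_mul_le_iff₀ hg0]; linarith
    rw [e1] at hr
    have h2 : ‖g‖⁻¹ * |g x| * |f y| ≤ |f y| := by
      apply mul_le_of_le_one_left (abs_nonneg _) hgx
    have : κ ≤ τ := min_le_right _ _
    linarith

/-- Slice of the closed unit ball. -/
def Sl (g : Z →L[ℝ] ℝ) (δ : ℝ) : Set Z := {z | ‖z‖ ≤ 1 ∧ ‖g‖ - δ < g z}

lemma apply_le (g : Z →L[ℝ] ℝ) {z : Z} (hz : ‖z‖ ≤ 1) : g z ≤ ‖g‖ :=
  calc g z ≤ |g z| := le_abs_self _
    _ = ‖g z‖ := rfl
    _ ≤ ‖g‖ * ‖z‖ := g.le_opNorm _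
    _ ≤ ‖g‖ := mul_le_of_le_one_right (norm_nonneg _) hz

lemma sl_nonempty (g : Z →L[ℝ] ℝ) {δ : ℝ} (hδ : 0 < δ) : (Sl g δ).Nonempty := by
  obtain ⟨x, hx, hgx⟩ := g.exists_lt_apply_of_lt_opNorm (show ‖g‖ - δ < ‖g‖ by linarith)
  rcases le_or_gt 0 (g x) with h | h
  · exact ⟨x, hx.le, by rwa [Real.norm_eq_abs, abs_of_nonneg h] at hgx⟩
  · refine ⟨-x, by rw [norm_neg]; exact hx.le, ?_⟩
    rw [Real.norm_eq_abs, abs_of_neg h] at hgx
    rwa [map_neg]

/-- A point of the ball near which a whole slice is concentrated. -/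
def Dent (ε : ℝ) (d : Z) : Prop :=
  ‖d‖ ≤ 1 ∧ ∃ (g : Z →L[ℝ] ℝ) (δ : ℝ), g ≠ 0 ∧ 0 < δ ∧ ∀ z ∈ Sl g δ, ‖z - d‖ ≤ ε

lemma linkDent (h : numIndex Z = 1) {ε τ : ℝ} (hτ : 0 < τ) {d : Z} (hd : Dent ε d)
    (y : Z) (hy : ‖y‖ = 1) :
    ∃ f : Z →L[ℝ] ℝ, ‖f‖ = 1 ∧ 1 - τ < f y ∧ 1 - ε ≤ |f d| := by
  obtain ⟨-, g, δ, hg, hδ, hsl⟩ := hd
  obtain ⟨x, f, hx, hf, hfx, hgx, hfy⟩ := propA h g hg y hy hδ hτ
  have key : 1 - ε ≤ |f d| := by
    rcases le_or_gt 0 (g x) with h0 | h0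
    · rw [abs_of_nonneg h0] at hgx
      have := hsl x ⟨hx.le, hgx⟩
      have h2 : |f (x - d)| ≤ ε := by
        calc |f (x - d)| = ‖f (x - d)‖ := rfl
          _ ≤ ‖f‖ * ‖x - d‖ := f.le_opNorm _
          _ ≤ ε := by rw [hf, one_mul]; exact this
      rw [map_sub, hfx] at h2
      have := (abs_le.mp h2).2
      have := le_abs_self (f d)
      linarith
    · rw [abs_of_neg h0] at hgx
      have := hsl (-x) ⟨by rw [norm_neg]; exact hx.le, by rwa [map_neg]⟩
      have h2 : |f (-x - d)| ≤ ε := by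
        calc |f (-x - d)| = ‖f (-x - d)‖ := rfl
          _ ≤ ‖f‖ * ‖-x - d‖ := f.le_opNorm _
          _ ≤ ε := by rw [hf, one_mul]; exact this
      rw [map_sub, map_neg, hfx] at h2
      have := (abs_le.mp h2).1
      have := neg_abs_le (f d)
      linarith
  rcases le_or_gt 0 (f y) with h0 | h0
  · exact ⟨f, hf, by rwa [abs_of_nonneg h0] at hfy, key⟩
  · refine ⟨-f, by rwa [norm_neg], ?_, ?_⟩
    · rw [abs_of_neg h0] at hfy
      simpa using hfy
    · simpa using key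

/-- Iteration: one functional is nearly norming at `y` and nearly of modulus one at all of the
dented points. -/
lemma iterDent (h : numIndex Z = 1) (m : ℕ) :
    ∀ η : ℝ, 0 < η → ∃ ε : ℝ, 0 < ε ∧ ∀ d : Fin m → Z, (∀ i, Dent ε (d i)) →
      ∀ y : Z, ‖y‖ = 1 → ∃ f : Z →L[ℝ] ℝ, ‖f‖ ≤ 1 ∧ 1 - η ≤ f y ∧ ∀ i, 1 - η ≤ |f (d i)| := by
  induction m with
  | zero =>
    intro η hη
    refine ⟨1, one_pos, fun d _ y hy => ?_⟩
    obtain ⟨f, hf1, hf2⟩ := exists_dual_vector ℝ y (by rw [hy]; norm_num)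
    refine ⟨f, hf1.le, ?_, fun i => i.elim0⟩
    rw [hf2, hy]
    simp only [RCLike.ofReal_real_eq_id, id]
    linarith
  | succ m ih =>
    intro η hη
    set η' : ℝ := min (η / (2 * (m + 1))) (1 / 2) with hη'
    have hη'0 : 0 < η' := lt_min (by positivity) (by norm_num)
    have hη'1 : η' ≤ 1 / 2 := min_le_right _ _
    have hη'2 : 2 * (m + 1) * η' ≤ η := by
      have : η' ≤ η / (2 * (m + 1)) := min_le_left _ _
      calc 2 * ((m : ℝ) + 1) * η' ≤ 2 * (m + 1) * (η / (2 * (m + 1))) := by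
            apply mul_le_mul_of_nonneg_left this; positivity
        _ = η := by field_simp
    obtain ⟨ε', hε', H⟩ := ih η' hη'0
    refine ⟨min ε' η, lt_min hε' hη, fun d hd y hy => ?_⟩
    obtain ⟨f₀, hf₀, hf₀y, hf₀d⟩ := H (fun i => d i.castSucc) (fun i => by
      obtain ⟨h1, g, δ, h2, h3, h4⟩ := hd i.castSucc
      exact ⟨h1, g, δ, h2, h3, fun z hz => (h4 z hz).trans (min_le_left _ _)⟩) y hy
    -- signs
    let s : Fin m → ℝ := fun i => if 0 ≤ f₀ (d i.castSucc) then 1 else -1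
    have hs : ∀ i, s i * f₀ (d i.castSucc) = |f₀ (d i.castSucc)| := by
      intro i
      simp only [s]
      split_ifs with h0
      · rw [one_mul, abs_of_nonneg h0]
      · rw [abs_of_neg (not_le.mp h0)]; ring
    have hs1 : ∀ i, |s i| = 1 := by
      intro i
      simp only [s]
      split_ifs <;> simp
    set Y : Z := y + ∑ i, s i • d i.castSucc with hY
    have hYlow : ((m : ℝ) + 1) * (1 - η') ≤ ‖Y‖ := by
      have e1 : f₀ Y = f₀ y + ∑ i : Fin m, |f₀ (d i.castSucc)| := by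
        rw [hY, map_add, map_sum]
        congr 1
        apply Finset.sum_congr rfl
        intro i _
        rw [map_smul, smul_eq_mul, hs]
      have e2 : (m : ℝ) * (1 - η') ≤ ∑ i : Fin m, |f₀ (d i.castSucc)| := by
        calc (m : ℝ) * (1 - η') = ∑ _i : Fin m, (1 - η') := by
              rw [Finset.sum_const, Finset.card_univ, Fintype.card_fin, nsmul_eq_mul]
          _ ≤ _ := Finset.sum_le_sum fun i _ => hf₀d i
      have e3 : f₀ Y ≤ ‖Y‖ := by
        calc f₀ Y ≤ ‖f₀ Y‖ := le_abs_self _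
          _ ≤ ‖f₀‖ * ‖Y‖ := f₀.le_opNorm _
          _ ≤ ‖Y‖ := mul_le_of_le_one_left (norm_nonneg _) hf₀
      nlinarith
    have hYpos : 0 < ‖Y‖ := by
      have : 0 < ((m : ℝ) + 1) * (1 - η') := by
        apply mul_pos (by positivity); linarith
      linarith
    have hy' : ‖(‖Y‖⁻¹ • Y)‖ = 1 := by
      rw [norm_smul, norm_inv, norm_norm, inv_mul_cancel₀ hYpos.ne']
    obtain ⟨f, hf, hfy, hfd⟩ := linkDent h hη'0 (hd (Fin.last m)) (‖Y‖⁻¹ • Y) hy'
    have hfY : ((m : ℝ) + 1) - η ≤ f Y := by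
      rw [map_smul, smul_eq_mul] at hfy
      have e1 : ‖Y‖ * (1 - η') ≤ f Y := by
        have := mul_lt_mul_of_pos_left hfy hYpos
        rw [← mul_assoc, mul_inv_cancel₀ hYpos.ne', one_mul] at this
        exact this.le
      have e2 : ((m : ℝ) + 1) * (1 - η') * (1 - η') ≤ ‖Y‖ * (1 - η') :=
        mul_le_mul_of_nonneg_right hYlow (by linarith)
      have e3 : ((m : ℝ) + 1) - 2 * (m + 1) * η' ≤ ((m : ℝ) + 1) * (1 - η') * (1 - η') := by
        have : 0 ≤ ((m : ℝ) + 1) * (η' * η') := by positivity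
        nlinarith
      linarith
    have hfle : ∀ z : Z, ‖z‖ ≤ 1 → f z ≤ 1 := fun z hz => hf ▸ apply_le f hz
    have hterm : ∀ i, f (s i • d i.castSucc) ≤ 1 := by
      intro i
      apply hfle
      rw [norm_smul, Real.norm_eq_abs, hs1, one_mul]
      exact (hd i.castSucc).1
    have hfYe : f Y = f y + ∑ i, f (s i • d i.castSucc) := by
      rw [hY, map_add, map_sum]
    refine ⟨f, hf.le, ?_, ?_⟩
    · have : ∑ i : Fin m, f (s i • d i.castSucc) ≤ m := by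
        calc ∑ i : Fin m, f (s i • d i.castSucc) ≤ ∑ _i : Fin m, (1 : ℝ) :=
              Finset.sum_le_sum fun i _ => hterm i
          _ = m := by simp
      linarith
    · intro i
      refine Fin.lastCases ?_ (fun (j : Fin m) => ?_) i
      · have := hfd
        have : min ε' η ≤ η := min_le_right _ _
        linarith
      · have e1 : ∑ i ∈ Finset.univ.erase j, f (s i • d i.castSucc) ≤ (m : ℝ) - 1 := by
          calc ∑ i ∈ Finset.univ.erase j, f (s i • d i.castSucc)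
              ≤ ∑ _i ∈ Finset.univ.erase j, (1 : ℝ) := Finset.sum_le_sum fun i _ => hterm i
            _ = (m : ℝ) - 1 := by
              rw [Finset.sum_const, Finset.card_erase_of_mem (Finset.mem_univ _)]
              have : 1 ≤ m := Nat.one_le_iff_ne_zero.mpr (by rintro rfl; exact j.elim0)
              simp [Nat.cast_sub this]
        have e2 : ∑ i : Fin m, f (s i • d i.castSucc) = f (s j • d j.castSucc) +
            ∑ i ∈ Finset.univ.erase j, f (s i • d i.castSucc) :=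
          (Finset.add_sum_erase _ _ (Finset.mem_univ j)).symm
        have e3 : f y ≤ 1 := hfle y hy.le
        have e4 : f (s j • d j.castSucc) ≤ |f (d j.castSucc)| := by
          rw [map_smul, smul_eq_mul]
          calc s j * f (d j.castSucc) ≤ |s j * f (d j.castSucc)| := le_abs_self _
            _ = |f (d j.castSucc)| := by rw [abs_mul, hs1, one_mul]
        linarith

lemma nearMax {Z : Type*} {C : Set Z} (hC : C.Nonempty) (G : Z → ℝ) {B : ℝ} (hB : ∀ z ∈ C, G z ≤ B)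
    {η : ℝ} (hη : 0 < η) : ∃ z₁ ∈ C, ∀ z ∈ C, G z ≤ G z₁ + η := by
  have hne : (G '' C).Nonempty := hC.image G
  have hbd : BddAbove (G '' C) := ⟨B, by rintro _ ⟨z, hz, rfl⟩; exact hB z hz⟩
  obtain ⟨_, ⟨z₁, hz₁, rfl⟩, h⟩ := exists_lt_of_lt_csSup hne
    (show sSup (G '' C) - η < sSup (G '' C) by linarith)
  refine ⟨z₁, hz₁, fun z hz => ?_⟩
  have := le_csSup hbd ⟨z, hz, rfl⟩
  linarith

/-- Every slice contains a slice whose image under a map into a Hilbert space is small. -/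
lemma hilbStep {E : Type*} [NormedAddCommGroup E] [InnerProductSpace ℝ E] (L : Z →L[ℝ] E)
    (g : Z →L[ℝ] ℝ) {δ θ : ℝ} (hδ : 0 < δ) (hθ : 0 < θ) :
    ∃ (g₂ : Z →L[ℝ] ℝ) (δ₂ : ℝ), 0 < δ₂ ∧ Sl g₂ δ₂ ⊆ Sl g δ ∧
      ∀ z ∈ Sl g₂ δ₂, ∀ z' ∈ Sl g₂ δ₂, ‖L z - L z'‖ ≤ θ := by
  set τ : ℝ := δ / (4 * (‖L‖ ^ 2 + 1)) with hτ
  have hτ0 : 0 < τ := by positivity
  have hτL : ∀ z : Z, ‖z‖ ≤ 1 → τ * ‖L z‖ ^ 2 ≤ δ / 4 := by
    intro z hz
    have h1 : ‖L z‖ ≤ ‖L‖ := (L.le_opNorm z).trans (mul_le_of_le_one_right (norm_nonneg _) hz)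
    have h2 : ‖L z‖ ^ 2 ≤ ‖L‖ ^ 2 + 1 := by nlinarith [norm_nonneg (L z)]
    calc τ * ‖L z‖ ^ 2 ≤ τ * (‖L‖ ^ 2 + 1) := mul_le_mul_of_nonneg_left h2 hτ0.le
      _ = δ / 4 := by rw [hτ]; field_simp
  set η : ℝ := min (δ / 8) (τ * θ ^ 2 / 16) with hη
  have hη0 : 0 < η := lt_min (by positivity) (by positivity)
  have hη1 : η ≤ δ / 8 := min_le_left _ _
  have hη2 : η ≤ τ * θ ^ 2 / 16 := min_le_right _ _
  obtain ⟨z₁, hz₁, hmax⟩ := nearMax (C := {z : Z | ‖z‖ ≤ 1}) ⟨0, by simp⟩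
    (fun z => g z + τ * ‖L z‖ ^ 2) (B := ‖g‖ + δ / 4) (fun z hz => by
      have := apply_le g hz
      have := hτL z hz
      linarith) hη0
  have hz₁' : ‖z₁‖ ≤ 1 := hz₁
  let g₂ : Z →L[ℝ] ℝ := g + (2 * τ) • ((innerSL ℝ (L z₁)).comp L)
  have hg₂ : ∀ z, g₂ z = g z + 2 * τ * inner ℝ (L z₁) (L z) := by
    intro z
    simp [g₂]
  have hid : ∀ z, g z + τ * ‖L z‖ ^ 2 =
      (g z₁ + τ * ‖L z₁‖ ^ 2) + (g₂ z - g₂ z₁) + τ * ‖L z - L z₁‖ ^ 2 := by
    intro z
    rw [hg₂, hg₂, norm_sub_sq_real, real_inner_self_eq_norm_sq, real_inner_comm (L z) (L z₁)]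
    ring
  have hmain : ∀ z ∈ Sl g₂ η, ‖L z - L z₁‖ ≤ θ / 2 ∧ ‖g‖ - δ < g z := by
    rintro z ⟨hz, hgz⟩
    have h1 : g z + τ * ‖L z‖ ^ 2 ≤ g z₁ + τ * ‖L z₁‖ ^ 2 + η := hmax z hz
    have h2 := hid z
    have h3 : g₂ z₁ ≤ ‖g₂‖ := apply_le g₂ hz₁'
    have h4 : τ * ‖L z - L z₁‖ ^ 2 ≤ 2 * η := by linarith
    constructor
    · have h5 : τ * ‖L z - L z₁‖ ^ 2 ≤ τ * (θ ^ 2 / 4) := by
        have : 2 * η ≤ τ * θ ^ 2 / 8 := by linarith
        have : 0 ≤ τ * θ ^ 2 := by positivity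
        linarith
      have h6 : ‖L z - L z₁‖ ^ 2 ≤ (θ / 2) ^ 2 := by
        have := le_of_mul_le_mul_left h5 hτ0
        linarith
      exact le_of_sq_le_sq h6 (by positivity)
    · obtain ⟨w, hw, hgw⟩ := sl_nonempty g hη0
      have h7 : g w + τ * ‖L w‖ ^ 2 ≤ g z₁ + τ * ‖L z₁‖ ^ 2 + η := hmax w hw
      have h8 : 0 ≤ τ * ‖L w‖ ^ 2 := by positivity
      have h9 := hτL z hz
      have h10 : 0 ≤ τ * ‖L z - L z₁‖ ^ 2 := by positivity
      linarith
  refine ⟨g₂, η, hη0, fun z hz => ⟨hz.1, (hmain z hz).2⟩, fun z hz z' hz' => ?_⟩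
  have h1 := (hmain z hz).1
  have h2 := (hmain z' hz').1
  calc ‖L z - L z'‖ = ‖(L z - L z₁) - (L z' - L z₁)‖ := by congr 1; abel
    _ ≤ ‖L z - L z₁‖ + ‖L z' - L z₁‖ := norm_sub_le _ _
    _ ≤ θ := by linarith

end general

/-- The real sequence space l1. -/
abbrev E1 : Type := lp (fun _ : ℕ => ℝ) 1

/-- The real Hilbert space l2 over an index set. -/
abbrev E2 (Γ : Type) : Type := lp (fun _ : Γ => ℝ) 2

section ell1

lemma summable_abs (a : E1) : Summable fun k => |a k| := by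
  have h := (lp.memℓp a).summable (by norm_num)
  simpa using h

lemma norm_eq (a : E1) : ‖a‖ = ∑' k, |a k| := by
  rw [lp.norm_eq_tsum_rpow (by norm_num)]
  simp

/-- Tail of the norm of an element of l1. -/
def tail (n : ℕ) (a : E1) : ℝ := ∑' k, |a (k + n)|

lemma tail_nonneg (n : ℕ) (a : E1) : 0 ≤ tail n a := tsum_nonneg fun _ => abs_nonneg _

lemma norm_split (n : ℕ) (a : E1) : ‖a‖ = ∑ k ∈ Finset.range n, |a k| + tail n a := by
  rw [norm_eq, tail]
  exact ((summable_abs a).sum_add_tsum_nat_add n).symm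

lemma tail_small (a : E1) {θ : ℝ} (hθ : 0 < θ) : ∃ n, tail n a ≤ θ := by
  have h := _root_.tendsto_sum_nat_add (fun k => |a k|)
  have h2 := (h.eventually (gt_mem_nhds hθ)).exists
  obtain ⟨n, hn⟩ := h2
  exact ⟨n, hn.le⟩

lemma norm_sub_le' (n : ℕ) (a b : E1) :
    ‖a - b‖ ≤ ∑ k ∈ Finset.range n, |a k - b k| + tail n a + tail n b := by
  rw [norm_split n (a - b)]
  have h1 : tail n (a - b) ≤ tail n a + tail n b := by
    have s1 : Summable fun k => |a (k + n)| := (summable_nat_add_iff n).mpr (summable_abs a)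
    have s2 : Summable fun k => |b (k + n)| := (summable_nat_add_iff n).mpr (summable_abs b)
    have s3 : Summable fun k => |(a - b) (k + n)| :=
      (summable_nat_add_iff n).mpr (summable_abs (a - b))
    unfold tail
    rw [← s1.tsum_add s2]
    apply s3.tsum_le_tsum _ (s1.add s2)
    intro k
    simp only [lp.coeFn_sub, Pi.sub_apply]
    exact abs_sub _ _
  have h2 : ∑ k ∈ Finset.range n, |(a - b) k| = ∑ k ∈ Finset.range n, |a k - b k| := by
    simp
  linarith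

variable {Z : Type*} [NormedAddCommGroup Z] [NormedSpace ℝ Z]

/-- Sign with values in plus or minus one. -/
def sg (t : ℝ) : ℝ := if 0 ≤ t then 1 else -1

lemma sg_mul (t : ℝ) : sg t * t = |t| := by
  unfold sg
  split_ifs with h
  · rw [one_mul, abs_of_nonneg h]
  · rw [abs_of_neg (not_le.mp h)]; ring

lemma abs_sg (t : ℝ) : |sg t| = 1 := by
  unfold sg
  split_ifs <;> simp

/-- Every slice contains a slice on which the tails of the l1 component are uniformly small. -/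
lemma tailStep (P : Z →L[ℝ] E1) (g : Z →L[ℝ] ℝ) {δ θ : ℝ} (hδ : 0 < δ) (hθ : 0 < θ) :
    ∃ (g₂ : Z →L[ℝ] ℝ) (δ₂ : ℝ) (n : ℕ), 0 < δ₂ ∧ Sl g₂ δ₂ ⊆ Sl g δ ∧
      ∀ z ∈ Sl g₂ δ₂, tail n (P z) ≤ θ := by
  set τ : ℝ := δ / (4 * (‖P‖ + 1 + θ)) with hτ
  have hPn := norm_nonneg P
  have hτ0 : 0 < τ := by positivity
  have hτP : ∀ z : Z, ‖z‖ ≤ 1 → τ * ‖P z‖ ≤ δ / 4 := by
    intro z hz
    have h1 : ‖P z‖ ≤ ‖P‖ := (P.le_opNorm z).trans (mul_le_of_le_one_right (norm_nonneg _) hz)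
    calc τ * ‖P z‖ ≤ τ * (‖P‖ + 1 + θ) := mul_le_mul_of_nonneg_left (by linarith) hτ0.le
      _ = δ / 4 := by rw [hτ]; field_simp
  have hτθ : τ * θ ≤ δ / 4 := by
    calc τ * θ ≤ τ * (‖P‖ + 1 + θ) := mul_le_mul_of_nonneg_left (by linarith) hτ0.le
      _ = δ / 4 := by rw [hτ]; field_simp
  set η : ℝ := min (δ / 8) (τ * θ / 4) with hη
  have hη0 : 0 < η := lt_min (by positivity) (by positivity)
  have hη1 : η ≤ δ / 8 := min_le_left _ _
  have hη2 : η ≤ τ * θ / 4 := min_le_right _ _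
  obtain ⟨z₁, hz₁, hmax⟩ := nearMax (C := {z : Z | ‖z‖ ≤ 1}) ⟨0, by simp⟩
    (fun z => g z + τ * ‖P z‖) (B := ‖g‖ + δ / 4) (fun z hz => by
      have := apply_le g hz
      have := hτP z hz
      linarith) hη0
  have hz₁' : ‖z₁‖ ≤ 1 := hz₁
  obtain ⟨n, hn⟩ := tail_small (P z₁) (show 0 < θ / 4 by positivity)
  let c : Z →L[ℝ] ℝ := ∑ k ∈ Finset.range n, (sg (P z₁ k)) • ((lp.evalCLM ℝ (fun _ : ℕ => ℝ) 1 k).comp P)
  have hc : ∀ z, c z = ∑ k ∈ Finset.range n, sg (P z₁ k) * P z k := by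
    intro z
    simp only [c, _root_.sum_apply]
    rfl
  have hcle : ∀ z, c z ≤ ∑ k ∈ Finset.range n, |P z k| := by
    intro z
    rw [hc]
    apply Finset.sum_le_sum
    intro k _
    calc sg (P z₁ k) * P z k ≤ |sg (P z₁ k) * P z k| := le_abs_self _
      _ = |P z k| := by rw [abs_mul, abs_sg, one_mul]
  have hc1 : c z₁ = ∑ k ∈ Finset.range n, |P z₁ k| := by
    rw [hc]
    exact Finset.sum_congr rfl fun k _ => sg_mul _
  let g₂ : Z →L[ℝ] ℝ := g + τ • c
  have hg₂ : ∀ z, g₂ z = g z + τ * c z := by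
    intro z
    simp [g₂]
  refine ⟨g₂, η, n, hη0, ?_, ?_⟩
  · rintro z ⟨hz, hgz⟩
    refine ⟨hz, ?_⟩
    obtain ⟨w, hw, hgw⟩ := sl_nonempty g hη0
    have h7 : g w + τ * ‖P w‖ ≤ g z₁ + τ * ‖P z₁‖ + η := hmax w hw
    have h8 : 0 ≤ τ * ‖P w‖ := by positivity
    have h9 := hτP z hz
    have h10 : g₂ z₁ ≤ ‖g₂‖ := apply_le g₂ hz₁'
    have h11 := norm_split n (P z₁)
    have h12 : τ * ‖P z₁‖ = τ * c z₁ + τ * tail n (P z₁) := by rw [h11, hc1]; ring
    have h13 : τ * tail n (P z₁) ≤ τ * (θ / 4) := mul_le_mul_of_nonneg_left hn hτ0.le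
    have h14 : τ * c z ≤ τ * ‖P z‖ := by
      apply mul_le_mul_of_nonneg_left _ hτ0.le
      have := norm_split n (P z)
      have := tail_nonneg n (P z)
      have := hcle z
      linarith
    rw [hg₂] at h10 hgz
    linarith
  · rintro z ⟨hz, hgz⟩
    have h1 : g z + τ * ‖P z‖ ≤ g z₁ + τ * ‖P z₁‖ + η := hmax z hz
    have h10 : g₂ z₁ ≤ ‖g₂‖ := apply_le g₂ hz₁'
    have h11 := norm_split n (P z₁)
    have h12 : τ * ‖P z₁‖ = τ * c z₁ + τ * tail n (P z₁) := by rw [h11, hc1]; ring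
    have h13 : τ * tail n (P z₁) ≤ τ * (θ / 4) := mul_le_mul_of_nonneg_left hn hτ0.le
    have h15 : τ * ‖P z‖ = τ * ∑ k ∈ Finset.range n, |P z k| + τ * tail n (P z) := by
      rw [norm_split n (P z)]; ring
    have h16 : τ * c z ≤ τ * ∑ k ∈ Finset.range n, |P z k| :=
      mul_le_mul_of_nonneg_left (hcle z) hτ0.le
    rw [hg₂] at h10 hgz
    have h17 : τ * tail n (P z) ≤ τ * θ := by linarith
    exact le_of_mul_le_mul_left h17 hτ0

/-- Finitely many coordinates can be made to oscillate little on a smaller slice. -/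
lemma coordStep (P : Z →L[ℝ] E1) (n : ℕ) {θ : ℝ} (hθ : 0 < θ) :
    ∀ (g : Z →L[ℝ] ℝ) (δ : ℝ), 0 < δ →
    ∃ (g₂ : Z →L[ℝ] ℝ) (δ₂ : ℝ), 0 < δ₂ ∧ Sl g₂ δ₂ ⊆ Sl g δ ∧
      ∀ z ∈ Sl g₂ δ₂, ∀ z' ∈ Sl g₂ δ₂, ∀ k < n, |P z k - P z' k| ≤ θ := by
  induction n with
  | zero =>
    intro g δ hδ
    exact ⟨g, δ, hδ, subset_rfl, fun z _ z' _ k hk => absurd hk (Nat.not_lt_zero k)⟩
  | succ n ih =>
    intro g δ hδ
    obtain ⟨g₁, δ₁, hδ₁, hs₁, H₁⟩ := ih g δ hδ
    obtain ⟨g₂, δ₂, hδ₂, hs₂, H₂⟩ := hilbStep ((lp.evalCLM ℝ (fun _ : ℕ => ℝ) 1 n).comp P) g₁ hδ₁ hθ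
    refine ⟨g₂, δ₂, hδ₂, hs₂.trans hs₁, fun z hz z' hz' k hk => ?_⟩
    rcases Nat.lt_succ_iff_lt_or_eq.mp hk with h | h
    · exact H₁ z (hs₂ hz) z' (hs₂ hz') k h
    · subst h
      exact H₂ z hz z' hz'

/-- Every slice of the unit ball of a renorming of a subspace of l1 plus a Hilbert space contains
a slice of small diameter. -/
lemma dentStep {E : Type*} [NormedAddCommGroup E] [InnerProductSpace ℝ E]
    (P : Z →L[ℝ] E1) (Q : Z →L[ℝ] E) {K : ℝ} (hK : 0 < K)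
    (hPQ : ∀ z, ‖z‖ ≤ K * (‖P z‖ + ‖Q z‖)) (g : Z →L[ℝ] ℝ) {δ ε : ℝ} (hδ : 0 < δ) (hε : 0 < ε) :
    ∃ (g₂ : Z →L[ℝ] ℝ) (δ₂ : ℝ), 0 < δ₂ ∧ Sl g₂ δ₂ ⊆ Sl g δ ∧
      ∀ z ∈ Sl g₂ δ₂, ∀ z' ∈ Sl g₂ δ₂, ‖z - z'‖ ≤ ε := by
  set θ : ℝ := ε / (4 * K) with hθ
  have hθ0 : 0 < θ := by positivity
  obtain ⟨g₁, δ₁, n, hδ₁, hs₁, H₁⟩ := tailStep P g hδ hθ0
  obtain ⟨g₂, δ₂, hδ₂, hs₂, H₂⟩ := coordStep P n (show 0 < θ / (n + 1) by positivity) g₁ δ₁ hδ₁
  obtain ⟨g₃, δ₃, hδ₃, hs₃, H₃⟩ := hilbStep Q g₂ hδ₂ hθ0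
  refine ⟨g₃, δ₃, hδ₃, hs₃.trans (hs₂.trans hs₁), fun z hz z' hz' => ?_⟩
  have h1 := norm_sub_le' n (P z) (P z')
  have h2 := H₁ z (hs₂ (hs₃ hz))
  have h3 := H₁ z' (hs₂ (hs₃ hz'))
  have h4 : ∑ k ∈ Finset.range n, |P z k - P z' k| ≤ θ := by
    calc ∑ k ∈ Finset.range n, |P z k - P z' k| ≤ ∑ _k ∈ Finset.range n, θ / (n + 1) :=
          Finset.sum_le_sum fun k hk =>
            H₂ z (hs₃ hz) z' (hs₃ hz') k (Finset.mem_range.mp hk)
      _ = n * (θ / (n + 1)) := by simp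
      _ ≤ θ := by
        rw [mul_div_assoc', div_le_iff₀ (by positivity)]
        nlinarith
  have h5 := H₃ z hz z' hz'
  have h6 := hPQ (z - z')
  rw [map_sub, map_sub] at h6
  calc ‖z - z'‖ ≤ K * (‖P z - P z'‖ + ‖Q z - Q z'‖) := h6
    _ ≤ K * (3 * θ + θ) := mul_le_mul_of_nonneg_left (by linarith) hK.le
    _ = ε := by rw [hθ]; field_simp; ring

end ell1

section hilbert

variable {E : Type*} [NormedAddCommGroup E] [InnerProductSpace ℝ E]

lemma gram {m : ℕ} (v : Fin m → E) (σ : Fin m → ℝ) (hσ : ∀ a, |σ a| ≤ 1) {ε : ℝ}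
    (hv : ∀ a b, a ≠ b → |inner ℝ (v a) (v b)| ≤ ε) (hε : 0 ≤ ε) :
    |‖∑ a, σ a • v a‖ ^ 2 - ∑ a, σ a ^ 2 * ‖v a‖ ^ 2| ≤ (m : ℝ) ^ 2 * ε := by
  have e1 : ‖∑ a, σ a • v a‖ ^ 2 = ∑ a, ∑ b, σ a * (σ b * inner ℝ (v a) (v b)) := by
    rw [← real_inner_self_eq_norm_sq, sum_inner]
    apply Finset.sum_congr rfl
    intro a _
    rw [inner_sum]
    apply Finset.sum_congr rfl
    intro b _
    rw [real_inner_smul_left, real_inner_smul_right]
  have e2 : ∑ a, σ a ^ 2 * ‖v a‖ ^ 2 =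
      ∑ a, ∑ b, if a = b then σ a * (σ b * inner ℝ (v a) (v b)) else 0 := by
    apply Finset.sum_congr rfl
    intro a _
    rw [Finset.sum_ite_eq]
    simp only [Finset.mem_univ, if_true]
    rw [real_inner_self_eq_norm_sq]
    ring
  rw [e1, e2, ← Finset.sum_sub_distrib]
  calc |∑ a, (∑ b, σ a * (σ b * inner ℝ (v a) (v b)) -
        ∑ b, if a = b then σ a * (σ b * inner ℝ (v a) (v b)) else 0)|
      ≤ ∑ a, |∑ b, σ a * (σ b * inner ℝ (v a) (v b)) -
        ∑ b, if a = b then σ a * (σ b * inner ℝ (v a) (v b)) else 0| :=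
        Finset.abs_sum_le_sum_abs _ _
    _ ≤ ∑ _a : Fin m, (m : ℝ) * ε := by
        apply Finset.sum_le_sum
        intro a _
        rw [← Finset.sum_sub_distrib]
        calc |∑ b, (σ a * (σ b * inner ℝ (v a) (v b)) -
              if a = b then σ a * (σ b * inner ℝ (v a) (v b)) else 0)|
            ≤ ∑ b, |σ a * (σ b * inner ℝ (v a) (v b)) -
              if a = b then σ a * (σ b * inner ℝ (v a) (v b)) else 0| :=
              Finset.abs_sum_le_sum_abs _ _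
          _ ≤ ∑ _b : Fin m, ε := by
              apply Finset.sum_le_sum
              intro b _
              by_cases hab : a = b
              · rw [if_pos hab, sub_self, abs_zero]; exact hε
              · rw [if_neg hab, sub_zero, abs_mul, abs_mul]
                have h1 := hv a b hab
                have h2 := hσ a
                have h3 := hσ b
                have h4 := abs_nonneg (σ a)
                have h5 := abs_nonneg (σ b)
                have h6 := abs_nonneg (inner ℝ (v a) (v b))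
                calc |σ a| * (|σ b| * |inner ℝ (v a) (v b)|)
                    ≤ 1 * (1 * ε) := by gcongr
                  _ = ε := by ring
          _ = (m : ℝ) * ε := by simp
    _ = (m : ℝ) ^ 2 * ε := by
        rw [Finset.sum_const, Finset.card_univ, Fintype.card_fin, nsmul_eq_mul]; ring

/-- A bounded functional is large only at boundedly many members of a nearly orthogonal family. -/
lemma few_large {m : ℕ} (v : Fin m → E) {ε V K : ℝ} (hK : 0 < K)
    (hv : ∀ a b, a ≠ b → |inner ℝ (v a) (v b)| ≤ ε) (hε : 0 ≤ ε) (hvV : ∀ a, ‖v a‖ ≤ V)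
    (hε2 : K ^ 2 * ((m : ℝ) ^ 2 * ε) ≤ 1 / 32)
    (φ : E →ₗ[ℝ] ℝ) (hφ : ∀ x, |φ x| ≤ K * ‖x‖) :
    ((Finset.univ.filter fun a => 1 / 4 < |φ (v a)|).card : ℝ) ≤ 32 * K ^ 2 * V ^ 2 := by
  classical
  set J := Finset.univ.filter fun a => 1 / 4 < |φ (v a)| with hJ
  let σ : Fin m → ℝ := fun a => if a ∈ J then sg (φ (v a)) else 0
  have hσ : ∀ a, |σ a| ≤ 1 := by
    intro a
    simp only [σ]
    split_ifs
    · exact (abs_sg _).le
    · simp
  have h1 := (abs_le.mp (gram v σ hσ hv hε)).2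
  have h2 : ∑ a, σ a ^ 2 * ‖v a‖ ^ 2 ≤ (J.card : ℝ) * V ^ 2 := by
    calc ∑ a, σ a ^ 2 * ‖v a‖ ^ 2 ≤ ∑ a, if a ∈ J then V ^ 2 else 0 := by
          apply Finset.sum_le_sum
          intro a _
          simp only [σ]
          split_ifs with h
          · have : sg (φ (v a)) ^ 2 = 1 := by
              rw [← sq_abs, abs_sg]; norm_num
            rw [this, one_mul]
            exact pow_le_pow_left₀ (norm_nonneg _) (hvV a) 2
          · simp
      _ = (J.card : ℝ) * V ^ 2 := by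
          rw [← Finset.sum_filter]
          simp
  have h3 : (J.card : ℝ) / 4 ≤ φ (∑ a, σ a • v a) := by
    rw [map_sum]
    calc (J.card : ℝ) / 4 = ∑ a, if a ∈ J then (1 / 4 : ℝ) else 0 := by
          rw [← Finset.sum_filter]
          simp
          ring
      _ ≤ ∑ a, φ (σ a • v a) := by
          apply Finset.sum_le_sum
          intro a _
          rw [map_smul, smul_eq_mul]
          simp only [σ]
          split_ifs with h
          · rw [sg_mul]
            exact (Finset.mem_filter.mp h).2.le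
          · simp
  have h4 : (J.card : ℝ) / 4 ≤ K * ‖∑ a, σ a • v a‖ :=
    h3.trans ((le_abs_self _).trans (hφ _))
  have h5 : ((J.card : ℝ) / 4) ^ 2 ≤ K ^ 2 * ‖∑ a, σ a • v a‖ ^ 2 := by
    rw [← mul_pow]
    exact pow_le_pow_left₀ (by positivity) h4 2
  have h6 : K ^ 2 * ‖∑ a, σ a • v a‖ ^ 2 ≤ K ^ 2 * ((J.card : ℝ) * V ^ 2 + (m : ℝ) ^ 2 * ε) := by
    apply mul_le_mul_of_nonneg_left _ (by positivity)
    linarith
  have h7 : ((J.card : ℝ) / 4) ^ 2 ≤ K ^ 2 * ((J.card : ℝ) * V ^ 2) + 1 / 32 := by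
    calc ((J.card : ℝ) / 4) ^ 2 ≤ _ := h5.trans h6
      _ = K ^ 2 * ((J.card : ℝ) * V ^ 2) + K ^ 2 * ((m : ℝ) ^ 2 * ε) := by ring
      _ ≤ _ := by linarith
  rcases Nat.eq_zero_or_pos J.card with h0 | h0
  · rw [h0]; simp only [Nat.cast_zero]; positivity
  · have h8 : (1 : ℝ) ≤ J.card := by exact_mod_cast h0
    by_contra hcon
    push Not at hcon
    have h9 : (J.card : ℝ) * (32 * K ^ 2 * V ^ 2) < (J.card : ℝ) * J.card :=
      mul_lt_mul_of_pos_left hcon (by linarith)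
    nlinarith

end hilbert

section select

variable {Γ : Type}

lemma exists_weak_limit {S : Type} [Infinite S] (h : S → E2 Γ) {R : ℝ} (hR : ∀ s, ‖h s‖ ≤ R) :
    ∃ u : E2 Γ, ‖u‖ ≤ R ∧ ∀ g : E2 Γ,
      Tendsto (fun s => inner ℝ (h s) g) (hyperfilter S : Filter S) (𝓝 (inner ℝ u g)) := by
  let φ : S → WeakDual ℝ (E2 Γ) := fun s =>
    StrongDual.toWeakDual (InnerProductSpace.toDual ℝ (E2 Γ) (h s))
  have hK := WeakDual.isCompact_closedBall (𝕜 := ℝ) (E := E2 Γ) 0 R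
  obtain ⟨f, hf, hlim⟩ := hK.ultrafilter_le_nhds ((hyperfilter S).map φ) (by
    rw [le_principal_iff]
    apply Ultrafilter.mem_map.mpr
    apply Filter.univ_mem'
    intro s
    simp only [Set.mem_preimage, φ, Metric.mem_closedBall, dist_zero_right]
    have : WeakDual.toStrongDual (StrongDual.toWeakDual (InnerProductSpace.toDual ℝ (E2 Γ) (h s)))
      = InnerProductSpace.toDual ℝ (E2 Γ) (h s) := rfl
    rw [this, LinearIsometryEquiv.norm_map]
    exact hR s)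
  refine ⟨(InnerProductSpace.toDual ℝ (E2 Γ)).symm (WeakDual.toStrongDual f), ?_, ?_⟩
  · rw [LinearIsometryEquiv.norm_map]
    simpa using hf
  · intro g
    have h1 : Tendsto (fun s => φ s g) (hyperfilter S : Filter S) (𝓝 (f g)) := by
      have h2 : Tendsto φ (hyperfilter S : Filter S) (𝓝 f) := hlim
      exact ((WeakDual.eval_continuous g).tendsto f).comp h2
    have h3 : inner ℝ ((InnerProductSpace.toDual ℝ (E2 Γ)).symm (WeakDual.toStrongDual f)) g =
        f g := by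
      rw [InnerProductSpace.toDual_symm_apply]
      rfl
    rw [h3]
    exact h1

lemma coord_small (u : E2 Γ) {c : ℝ} (hc : 0 < c) : {γ : Γ | c < |u γ|}.Finite := by
  have h := (lp.memℓp u).summable (by norm_num)
  have h2 : Summable fun γ => |u γ| ^ 2 := by
    simpa using h
  have h3 := h2.tendsto_cofinite_zero
  have h4 : ∀ᶠ γ in cofinite, |u γ| ^ 2 < c ^ 2 := h3.eventually (gt_mem_nhds (by positivity))
  have h5 : {γ : Γ | ¬ (|u γ| ^ 2 < c ^ 2)}.Finite := h4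
  apply h5.subset
  intro γ hγ
  simp only [Set.mem_ofPred_eq] at hγ ⊢
  push Not
  exact pow_le_pow_left₀ hc.le hγ.le 2

lemma select {S : Set Γ} (hS : S.Infinite) (h : Γ → E2 Γ) {R c : ℝ} (hR : ∀ s, ‖h s‖ ≤ R)
    (hc : 0 < c) :
    ∃ u : E2 Γ, ‖u‖ ≤ R ∧ ∀ ε : ℝ, 0 < ε → ∀ m : ℕ, ∃ i : Fin m → Γ, (∀ a, i a ∈ S) ∧
      (∀ a b, a ≠ b → |inner ℝ (h (i a) - u) (h (i b) - u)| ≤ ε) ∧ ∀ a, |u (i a)| ≤ c := by
  have : Infinite S := hS.to_subtype
  obtain ⟨u, hu, hlim⟩ := exists_weak_limit (S := S) (fun s => h s) (fun s => hR s)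
  refine ⟨u, hu, fun ε hε m => ?_⟩
  induction m with
  | zero => exact ⟨fun a => a.elim0, fun a => a.elim0, fun a => a.elim0, fun a => a.elim0⟩
  | succ m ih =>
    obtain ⟨i, hiS, hi, hiu⟩ := ih
    have h1 : ∀ a : Fin m, ∀ᶠ s : S in (hyperfilter S : Filter S),
        |inner ℝ (h s - u) (h (i a) - u)| < ε := by
      intro a
      have h2 : Tendsto (fun s : S => |inner ℝ (h s - u) (h (i a) - u)|)
          (hyperfilter S : Filter S) (𝓝 0) := by
        have h3 := ((hlim (h (i a) - u)).sub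
          (tendsto_const_nhds (x := inner ℝ u (h (i a) - u)))).abs
        simp only [sub_self, abs_zero] at h3
        refine h3.congr fun s => ?_
        rw [← inner_sub_left]
      exact h2.eventually (gt_mem_nhds hε)
    have h4 : ∀ᶠ s : S in (hyperfilter S : Filter S), |u s| ≤ c := by
      apply hyperfilter_le_cofinite
      have h5 := (coord_small u hc).preimage (f := ((↑) : S → Γ)) Subtype.val_injective.injOn
      have : {s : S | ¬ |u s| ≤ c}.Finite := by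
        apply h5.subset
        intro s hs
        simpa using hs
      exact this
    obtain ⟨s, hs1, hs2⟩ := ((Filter.eventually_all.mpr h1).and h4).exists
    refine ⟨Fin.snoc i (s : Γ), ?_, ?_, ?_⟩
    · intro a
      refine Fin.lastCases ?_ (fun b => ?_) a
      · rw [Fin.snoc_last]; exact s.2
      · rw [Fin.snoc_castSucc]; exact hiS b
    · intro a b hab
      rcases Fin.eq_castSucc_or_eq_last a with ⟨a', rfl⟩ | rfl <;>
      rcases Fin.eq_castSucc_or_eq_last b with ⟨b', rfl⟩ | rfl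
      · rw [Fin.snoc_castSucc, Fin.snoc_castSucc]
        exact hi a' b' (fun h => hab (by rw [h]))
      · rw [Fin.snoc_castSucc, Fin.snoc_last, real_inner_comm]
        exact (hs1 a').le
      · rw [Fin.snoc_castSucc, Fin.snoc_last]
        exact (hs1 b').le
      · exact absurd rfl hab
    · intro a
      refine Fin.lastCases ?_ (fun b => ?_) a
      · rw [Fin.snoc_last]; exact hs2
      · rw [Fin.snoc_castSucc]; exact hiu b

lemma infinite_fiber {C : Type} [Countable C] [Uncountable Γ] (F : Γ → C) :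
    ∃ c, (F ⁻¹' {c}).Infinite := by
  by_contra hcon
  push Not at hcon
  have h1 : (⋃ c, F ⁻¹' {c}).Countable := by
    apply Set.countable_iUnion
    intro c
    exact (hcon c).countable
  have h2 : (⋃ c, F ⁻¹' {c}) = Set.univ := by
    ext γ; simp
  rw [h2, Set.countable_univ_iff] at h1
  exact not_countable h1

lemma pigeon [Uncountable Γ] (p : Γ → E1) {θ : ℝ} (hθ : 0 < θ) :
    ∃ S : Set Γ, S.Infinite ∧ ∀ s ∈ S, ∀ t ∈ S, ‖p s - p t‖ ≤ 3 * θ := by
  have hn : ∀ γ, ∃ n, tail n (p γ) ≤ θ := fun γ => tail_small (p γ) hθ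
  choose n hn using hn
  let F : Γ → ℕ × List ℤ := fun γ =>
    (n γ, (List.range (n γ)).map fun k => ⌊p γ k * (((n γ : ℝ) + 1) / θ)⌋)
  obtain ⟨c, hc⟩ := infinite_fiber F
  refine ⟨_, hc, fun s hs t ht => ?_⟩
  have hst : F s = F t := by
    rw [Set.mem_preimage, Set.mem_singleton_iff] at hs ht
    rw [hs, ht]
  have hnn : n s = n t := congrArg Prod.fst hst
  have hl : (List.range (n s)).map (fun k => ⌊p s k * (((n s : ℝ) + 1) / θ)⌋) =
      (List.range (n s)).map (fun k => ⌊p t k * (((n s : ℝ) + 1) / θ)⌋) := by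
    have := congrArg Prod.snd hst
    simp only [F] at this
    rw [this, hnn]
  have hk : ∀ k < n s, |p s k - p t k| ≤ θ / (n s + 1) := by
    intro k hk
    have h1 := List.map_inj_left.mp hl k (List.mem_range.mpr hk)
    have h2 := Int.abs_sub_lt_one_of_floor_eq_floor h1
    rw [← sub_mul, abs_mul, abs_of_pos (show 0 < ((n s : ℝ) + 1) / θ by positivity)] at h2
    rw [le_div_iff₀ (by positivity)]
    rw [mul_div_assoc', div_lt_one hθ] at h2
    exact h2.le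
  have h1 := norm_sub_le' (n s) (p s) (p t)
  have h2 : ∑ k ∈ Finset.range (n s), |p s k - p t k| ≤ θ := by
    calc ∑ k ∈ Finset.range (n s), |p s k - p t k| ≤ ∑ _k ∈ Finset.range (n s), θ / (n s + 1) :=
          Finset.sum_le_sum fun k hk' => hk k (Finset.mem_range.mp hk')
      _ = n s * (θ / (n s + 1)) := by simp
      _ ≤ θ := by
        rw [mul_div_assoc', div_le_iff₀ (by positivity)]
        nlinarith
  have h3 := hn s
  have h4 := hn t
  rw [← hnn] at h4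
  linarith

end select

/-- For an uncountable index set, no equivalent norm on l1 plus l2 has numerical index one. -/
theorem numIndex_ne_one (Γ : Type) [Uncountable Γ] (Z : Type) [NormedAddCommGroup Z]
    [NormedSpace ℝ Z] (e : (E1 × E2 Γ) ≃L[ℝ] Z) : numIndex Z ≠ 1 := by
  classical
  intro hindex
  -- components
  let P : Z →L[ℝ] E1 := (ContinuousLinearMap.fst ℝ E1 (E2 Γ)).comp (e.symm : Z →L[ℝ] E1 × E2 Γ)
  let Q : Z →L[ℝ] E2 Γ := (ContinuousLinearMap.snd ℝ E1 (E2 Γ)).comp (e.symm : Z →L[ℝ] E1 × E2 Γ)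
  have hP : ∀ z, P z = (e.symm z).1 := fun _ => rfl
  have hQ : ∀ z, Q z = (e.symm z).2 := fun _ => rfl
  set K₁ : ℝ := ‖(e : (E1 × E2 Γ) →L[ℝ] Z)‖ + 1 with hK₁
  set K₂ : ℝ := ‖(e.symm : Z →L[ℝ] E1 × E2 Γ)‖ + 1 with hK₂
  have hK₁0 : 0 < K₁ := by positivity
  have hK₂0 : 0 < K₂ := by positivity
  have hK₁1 : 1 ≤ K₁ := by rw [hK₁]; linarith [norm_nonneg (e : (E1 × E2 Γ) →L[ℝ] Z)]
  have he : ∀ w, ‖e w‖ ≤ K₁ * ‖w‖ := by
    intro w
    calc ‖e w‖ ≤ ‖(e : (E1 × E2 Γ) →L[ℝ] Z)‖ * ‖w‖ := (e : (E1 × E2 Γ) →L[ℝ] Z).le_opNorm w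
      _ ≤ K₁ * ‖w‖ := mul_le_mul_of_nonneg_right (by rw [hK₁]; linarith) (norm_nonneg _)
  have hes : ∀ z, ‖e.symm z‖ ≤ K₂ * ‖z‖ := by
    intro z
    calc ‖e.symm z‖ ≤ ‖(e.symm : Z →L[ℝ] E1 × E2 Γ)‖ * ‖z‖ :=
          (e.symm : Z →L[ℝ] E1 × E2 Γ).le_opNorm z
      _ ≤ K₂ * ‖z‖ := mul_le_mul_of_nonneg_right (by rw [hK₂]; linarith) (norm_nonneg _)
  have hQn : ∀ z, ‖Q z‖ ≤ K₂ * ‖z‖ := fun z => (norm_snd_le (e.symm z)).trans (hes z)
  have hPQ : ∀ z, ‖z‖ ≤ K₁ * (‖P z‖ + ‖Q z‖) := by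
    intro z
    have h1 := he (e.symm z)
    rw [e.apply_symm_apply] at h1
    apply h1.trans
    apply mul_le_mul_of_nonneg_left _ hK₁0.le
    rw [Prod.norm_def]
    apply max_le
    · exact le_add_of_nonneg_right (norm_nonneg _)
    · exact le_add_of_nonneg_left (norm_nonneg _)
  set r₀ : ℝ := 1 / K₁ with hr₀
  have hr₀0 : 0 < r₀ := by positivity
  -- dented points with a large coordinate
  have hdent : ∀ ε : ℝ, 0 < ε → ∀ γ : Γ, ∃ d : Z, Dent ε d ∧ r₀ / 2 < Q d γ := by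
    intro ε hε γ
    let g : Z →L[ℝ] ℝ := (lp.evalCLM ℝ (fun _ : Γ => ℝ) 2 γ).comp Q
    have hg : ∀ z, g z = Q z γ := fun _ => rfl
    have hgn : r₀ ≤ ‖g‖ := by
      let w : E1 × E2 Γ := (0, lp.single 2 γ r₀)
      have hw : ‖w‖ = r₀ := by
        rw [Prod.norm_def]
        simp only [w, norm_zero]
        rw [lp.norm_single (by norm_num), Real.norm_eq_abs, abs_of_pos hr₀0]
        exact max_eq_right hr₀0.le
      have h1 : ‖e w‖ ≤ 1 := by
        apply (he w).trans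
        rw [hw, hr₀]
        field_simp
        exact le_refl _
      have h2 : g (e w) = r₀ := by
        rw [hg, hQ, e.symm_apply_apply]
        simp [w]
      rw [← h2]
      exact apply_le g h1
    obtain ⟨g₂, δ₂, hδ₂, hs₂, H₂⟩ := dentStep P Q hK₁0 hPQ g (show 0 < r₀ / 2 by positivity) hε
    obtain ⟨d, hd⟩ := sl_nonempty g₂ hδ₂
    have hlow : ∀ z ∈ Sl g (r₀ / 2), r₀ / 2 < Q z γ := by
      rintro z ⟨-, hz⟩
      rw [hg] at hz
      linarith
    refine ⟨d, ⟨hd.1, g₂, δ₂, ?_, hδ₂, fun z hz => H₂ z hz d hd⟩, hlow d (hs₂ hd)⟩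
    rintro rfl
    have h0 : (0 : Z) ∈ Sl (0 : Z →L[ℝ] ℝ) δ₂ := ⟨by simp, by simpa using hδ₂⟩
    have h1 := hlow 0 (hs₂ h0)
    rw [map_zero] at h1
    simp at h1
    linarith
  -- choice of the size
  set N : ℝ := 32 * K₁ ^ 2 * (2 * K₂) ^ 2 with hN
  have hN0 : 0 ≤ N := by positivity
  obtain ⟨M, hM⟩ := exists_nat_gt (32 * K₂ ^ 2 * (2 + 4 * N) ^ 2 / r₀ ^ 2 + 1)
  set m : ℕ := 2 * M with hm
  have hmM : (M : ℝ) ≤ m := by rw [hm]; push_cast; linarith [Nat.cast_nonneg (α := ℝ) M]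
  have hm1 : 32 * K₂ ^ 2 * (2 + 4 * N) ^ 2 / r₀ ^ 2 < m := by linarith
  have hm2 : (1 : ℝ) < m := by
    have : 0 ≤ 32 * K₂ ^ 2 * (2 + 4 * N) ^ 2 / r₀ ^ 2 := by positivity
    linarith
  have hm0 : (0 : ℝ) < m := by linarith
  obtain ⟨ε, hε, Hiter⟩ := iterDent hindex m (1 / (4 * m)) (by positivity)
  choose d hd hdγ using hdent ε hε
  obtain ⟨S, hS, hSp⟩ := pigeon (fun γ => P (d γ)) (θ := 1 / (24 * K₁)) (by positivity)
  have hQd : ∀ γ, ‖Q (d γ)‖ ≤ K₂ := fun γ =>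
    (hQn _).trans (mul_le_of_le_one_right hK₂0.le (hd γ).1)
  obtain ⟨u, hu, Hsel⟩ := select hS (fun γ => Q (d γ)) hQd (show 0 < r₀ / 4 by positivity)
  set ε' : ℝ := min (1 / (32 * K₁ ^ 2 * m ^ 2)) (r₀ ^ 2 / (32 * m)) with hε'
  have hε'0 : 0 < ε' := lt_min (by positivity) (by positivity)
  have hε'1 : K₁ ^ 2 * ((m : ℝ) ^ 2 * ε') ≤ 1 / 32 := by
    have : ε' ≤ 1 / (32 * K₁ ^ 2 * m ^ 2) := min_le_left _ _
    calc K₁ ^ 2 * ((m : ℝ) ^ 2 * ε') ≤ K₁ ^ 2 * ((m : ℝ) ^ 2 * (1 / (32 * K₁ ^ 2 * m ^ 2))) := by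
          gcongr
      _ = 1 / 32 := by field_simp
  have hε'2 : (m : ℝ) ^ 2 * ε' ≤ m * (r₀ ^ 2 / 32) := by
    have : ε' ≤ r₀ ^ 2 / (32 * m) := min_le_right _ _
    calc (m : ℝ) ^ 2 * ε' ≤ (m : ℝ) ^ 2 * (r₀ ^ 2 / (32 * m)) := by gcongr
      _ = m * (r₀ ^ 2 / 32) := by field_simp
  obtain ⟨i, hiS, hi, hiu⟩ := Hsel ε' hε'0 m
  let D : Fin m → Z := fun a => d (i a)
  let v : Fin m → E2 Γ := fun a => Q (d (i a)) - u
  have hvup : ∀ a, ‖v a‖ ≤ 2 * K₂ := by
    intro a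
    calc ‖v a‖ ≤ ‖Q (d (i a))‖ + ‖u‖ := norm_sub_le _ _
      _ ≤ 2 * K₂ := by linarith [hQd (i a)]
  have hvlow : ∀ a, r₀ / 4 ≤ ‖v a‖ := by
    intro a
    have h1 := lp.norm_apply_le_norm (by norm_num) (v a) (i a)
    have h2 : (v a) (i a) = Q (d (i a)) (i a) - u (i a) := rfl
    rw [h2] at h1
    have h3 := hdγ (i a)
    have h4 := (abs_le.mp (hiu a)).2
    have h5 := le_abs_self (Q (d (i a)) (i a) - u (i a))
    rw [Real.norm_eq_abs] at h1
    linarith
  -- alternating signs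
  let σ : Fin m → ℝ := fun a => (-1) ^ (a : ℕ)
  have hσ1 : ∀ a, |σ a| = 1 := fun a => by simp [σ]
  have hσ2 : ∀ a, σ a ^ 2 = 1 := fun a => by rw [← sq_abs, hσ1]; norm_num
  have hσsum : ∑ a, σ a = 0 := by
    have h1 : ∑ a : Fin m, σ a = ∑ k ∈ Finset.range m, (-1 : ℝ) ^ k :=
      Fin.sum_univ_eq_sum_range (fun k => (-1 : ℝ) ^ k) m
    rw [h1, neg_one_geom_sum, if_pos (by rw [hm]; exact even_two_mul M)]
  set z : Z := ∑ a, σ a • D a with hz
  have hQz : Q z = ∑ a, σ a • v a := by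
    have h1 : ∑ a, σ a • v a = ∑ a, σ a • Q (D a) - (∑ a, σ a) • u := by
      rw [Finset.sum_smul, ← Finset.sum_sub_distrib]
      exact Finset.sum_congr rfl fun a _ => smul_sub _ _ _
    rw [h1, hσsum, zero_smul, sub_zero, hz, map_sum]
    exact Finset.sum_congr rfl fun a _ => map_smul _ _ _
  have hQzlow : m * (r₀ ^ 2 / 32) ≤ ‖Q z‖ ^ 2 := by
    have h1 := (abs_le.mp (gram v σ (fun a => (hσ1 a).le) hi hε'0.le)).1
    have h2 : (m : ℝ) * (r₀ / 4) ^ 2 ≤ ∑ a, σ a ^ 2 * ‖v a‖ ^ 2 := by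
      calc (m : ℝ) * (r₀ / 4) ^ 2 = ∑ _a : Fin m, (r₀ / 4) ^ 2 := by
            rw [Finset.sum_const, Finset.card_univ, Fintype.card_fin, nsmul_eq_mul]
        _ ≤ _ := by
            apply Finset.sum_le_sum
            intro a _
            rw [hσ2, one_mul]
            exact pow_le_pow_left₀ (by positivity) (hvlow a) 2
    rw [hQz]
    nlinarith
  have hzlow : m * (r₀ ^ 2 / 32) ≤ K₂ ^ 2 * ‖z‖ ^ 2 := by
    calc m * (r₀ ^ 2 / 32) ≤ ‖Q z‖ ^ 2 := hQzlow
      _ ≤ (K₂ * ‖z‖) ^ 2 := pow_le_pow_left₀ (norm_nonneg _) (hQn z) 2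
      _ = K₂ ^ 2 * ‖z‖ ^ 2 := by ring
  have hzpos : 0 < ‖z‖ := by
    rcases (norm_nonneg z).lt_or_eq with h | h
    · exact h
    · rw [← h] at hzlow
      have : 0 < m * (r₀ ^ 2 / 32) := by positivity
      simp at hzlow
      linarith
  have hy : ‖(‖z‖⁻¹ • z)‖ = 1 := by
    rw [norm_smul, norm_inv, norm_norm, inv_mul_cancel₀ hzpos.ne']
  obtain ⟨f, hf, hfy, hfd⟩ := Hiter D (fun a => hd (i a)) (‖z‖⁻¹ • z) hy
  set η : ℝ := 1 / (4 * m) with hη
  have hη0 : 0 < η := by positivity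
  have hη1 : η ≤ 1 / 4 := by
    rw [hη, div_le_div_iff₀ (by positivity) (by norm_num)]
    linarith
  have hmη : m * η = 1 / 4 := by rw [hη]; field_simp
  have hfz : ‖z‖ / 2 ≤ f z := by
    rw [map_smul, smul_eq_mul] at hfy
    have h1 : ‖z‖ * (1 - η) ≤ ‖z‖ * (‖z‖⁻¹ * f z) := mul_le_mul_of_nonneg_left hfy hzpos.le
    rw [← mul_assoc, mul_inv_cancel₀ hzpos.ne', one_mul] at h1
    nlinarith
  -- restriction of the functional to the Hilbert part
  let φ : E2 Γ →ₗ[ℝ] ℝ :=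
    { toFun := fun x => f (e (0, x))
      map_add' := fun x y => by
        rw [← map_add, ← map_add]; simp
      map_smul' := fun c x => by
        rw [RingHom.id_apply, ← map_smul, ← map_smul]; simp }
  have hφ : ∀ x, |φ x| ≤ K₁ * ‖x‖ := by
    intro x
    calc |φ x| = ‖f (e (0, x))‖ := rfl
      _ ≤ ‖f‖ * ‖e (0, x)‖ := f.le_opNorm _
      _ ≤ 1 * ‖e (0, x)‖ := mul_le_mul_of_nonneg_right hf (norm_nonneg _)
      _ ≤ K₁ * ‖((0 : E1), x)‖ := by rw [one_mul]; exact he _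
      _ = K₁ * ‖x‖ := by
        rw [Prod.norm_def]; simp
  have hcard := few_large v hK₁0 hi hε'0.le hvup hε'1 φ hφ
  set J := Finset.univ.filter fun a => 1 / 4 < |φ (v a)| with hJ
  have hmpos : 0 < m := by exact_mod_cast hm0
  let a₀ : Fin m := ⟨0, hmpos⟩
  set κ : ℝ := f (e (P (D a₀), u)) with hκ
  have hdec : ∀ a, f (D a) = κ + φ (v a) + f (e (P (D a) - P (D a₀), 0)) := by
    intro a
    have h1 : D a = e (P (D a₀), u) + e (0, v a) + e (P (D a) - P (D a₀), 0) := by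
      rw [← map_add, ← map_add]
      apply e.symm.injective
      rw [e.symm_apply_apply]
      apply Prod.ext
      · simp [hP]
      · simp [v, D, hQ]
    calc f (D a) = f (e (P (D a₀), u) + e (0, v a) + e (P (D a) - P (D a₀), 0)) := by
          rw [← h1]
      _ = κ + φ (v a) + f (e (P (D a) - P (D a₀), 0)) := by
          rw [map_add, map_add]; rfl
  have herr : ∀ a, |f (e (P (D a) - P (D a₀), 0))| ≤ 1 / 8 := by
    intro a
    have h1 := hSp (i a) (hiS a) (i a₀) (hiS a₀)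
    calc |f (e (P (D a) - P (D a₀), 0))| = ‖f (e (P (D a) - P (D a₀), 0))‖ := rfl
      _ ≤ ‖f‖ * ‖e (P (D a) - P (D a₀), (0 : E2 Γ))‖ := f.le_opNorm _
      _ ≤ 1 * ‖e (P (D a) - P (D a₀), (0 : E2 Γ))‖ :=
          mul_le_mul_of_nonneg_right hf (norm_nonneg _)
      _ ≤ K₁ * ‖(P (D a) - P (D a₀), (0 : E2 Γ))‖ := by rw [one_mul]; exact he _
      _ = K₁ * ‖P (D a) - P (D a₀)‖ := by rw [Prod.norm_def]; simp
      _ ≤ K₁ * (3 * (1 / (24 * K₁))) := mul_le_mul_of_nonneg_left h1 hK₁0.le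
      _ = 1 / 8 := by field_simp; norm_num
  have hfle : ∀ a, |f (D a)| ≤ 1 := by
    intro a
    calc |f (D a)| = ‖f (D a)‖ := rfl
      _ ≤ ‖f‖ * ‖D a‖ := f.le_opNorm _
      _ ≤ 1 * 1 := mul_le_mul hf (hd (i a)).1 (norm_nonneg _) zero_le_one
      _ = 1 := one_mul _
  obtain ⟨s, hs1, hs⟩ : ∃ s : ℝ, |s| = 1 ∧ ∀ a, a ∉ J → |f (D a) - s| ≤ η := by
    rcases le_or_gt 0 κ with hκ0 | hκ0
    · refine ⟨1, by simp, fun a ha => ?_⟩
      have h1 : |φ (v a)| ≤ 1 / 4 := by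
        by_contra hcon
        exact ha (Finset.mem_filter.mpr ⟨Finset.mem_univ _, not_le.mp hcon⟩)
      have h2 := hdec a
      have h3 := (abs_le.mp (herr a)).1
      have h4 := (abs_le.mp h1).1
      have h5 := hfd a
      have h6 : -(3 / 8) ≤ f (D a) := by linarith
      have h7 : 0 ≤ f (D a) := by
        by_contra hcon
        rw [abs_of_neg (not_le.mp hcon)] at h5
        linarith
      rw [abs_of_nonneg h7] at h5
      have h8 := (abs_le.mp (hfle a)).2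
      rw [abs_le]
      constructor <;> linarith
    · refine ⟨-1, by simp, fun a ha => ?_⟩
      have h1 : |φ (v a)| ≤ 1 / 4 := by
        by_contra hcon
        exact ha (Finset.mem_filter.mpr ⟨Finset.mem_univ _, not_le.mp hcon⟩)
      have h2 := hdec a
      have h3 := (abs_le.mp (herr a)).2
      have h4 := (abs_le.mp h1).2
      have h5 := hfd a
      have h6 : f (D a) ≤ 3 / 8 := by linarith
      have h7 : f (D a) < 0 := by
        by_contra hcon
        rw [abs_of_nonneg (not_lt.mp hcon)] at h5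
        linarith
      rw [abs_of_neg h7] at h5
      have h8 := (abs_le.mp (hfle a)).1
      rw [abs_le]
      constructor <;> linarith
  have hfzup : f z ≤ 1 / 4 + 2 * N := by
    have h1 : f z = ∑ a, σ a * (f (D a) - s) := by
      have h2 : ∑ a, σ a * (f (D a) - s) = ∑ a, σ a * f (D a) - (∑ a, σ a) * s := by
        rw [Finset.sum_mul, ← Finset.sum_sub_distrib]
        exact Finset.sum_congr rfl fun a _ => mul_sub _ _ _
      rw [h2, hσsum, zero_mul, sub_zero, hz, map_sum]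
      exact Finset.sum_congr rfl fun a _ => by rw [map_smul, smul_eq_mul]
    rw [h1]
    calc ∑ a, σ a * (f (D a) - s) ≤ ∑ a, (η + if a ∈ J then 2 else 0) := by
          apply Finset.sum_le_sum
          intro a _
          have h2 : σ a * (f (D a) - s) ≤ |f (D a) - s| := by
            calc σ a * (f (D a) - s) ≤ |σ a * (f (D a) - s)| := le_abs_self _
              _ = |f (D a) - s| := by rw [abs_mul, hσ1, one_mul]
          split_ifs with ha
          · have h3 : |f (D a) - s| ≤ |f (D a)| + |s| := abs_sub _ _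
            have h4 := hfle a
            rw [hs1] at h3
            linarith
          · have := hs a ha
            linarith
      _ = m * η + J.card * 2 := by
          rw [Finset.sum_add_distrib, Finset.sum_const, Finset.card_univ, Fintype.card_fin,
            nsmul_eq_mul, ← Finset.sum_filter]
          simp
      _ ≤ 1 / 4 + 2 * N := by
          rw [hmη]
          have : (J.card : ℝ) ≤ N := hcard
          linarith
  have hzle : ‖z‖ ≤ 2 + 4 * N := by linarith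
  have h1 : ‖z‖ ^ 2 ≤ (2 + 4 * N) ^ 2 := pow_le_pow_left₀ (norm_nonneg _) hzle 2
  have h2 : m * (r₀ ^ 2 / 32) ≤ K₂ ^ 2 * (2 + 4 * N) ^ 2 :=
    hzlow.trans (mul_le_mul_of_nonneg_left h1 (by positivity))
  rw [div_lt_iff₀ (by positivity)] at hm1
  linarith

section index_ell1

/-- The functional on l1 given by a bounded sequence. -/
lemma exists_functional (c : ℕ → ℝ) (hc : ∀ k, |c k| ≤ 1) :
    ∃ f : E1 →L[ℝ] ℝ, ‖f‖ ≤ 1 ∧ ∀ a : E1, f a = ∑' k, c k * a k := by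
  have hs : ∀ a : E1, Summable fun k => c k * a k := by
    intro a
    apply Summable.of_norm_bounded (summable_abs a)
    intro k
    rw [norm_mul, Real.norm_eq_abs, Real.norm_eq_abs]
    exact mul_le_of_le_one_left (abs_nonneg _) (hc k)
  let l : E1 →ₗ[ℝ] ℝ :=
    { toFun := fun a => ∑' k, c k * a k
      map_add' := fun a b => by
        rw [← (hs a).tsum_add (hs b)]
        congr 1
        ext k
        simp [mul_add]
      map_smul' := fun t a => by
        rw [RingHom.id_apply, smul_eq_mul, ← tsum_mul_left]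
        congr 1
        ext k
        simp
        ring }
  refine ⟨l.mkContinuous 1 ?_, l.mkContinuous_norm_le zero_le_one _, fun a => rfl⟩
  intro a
  change ‖∑' k, c k * a k‖ ≤ 1 * ‖a‖
  rw [one_mul, norm_eq]
  have hs2 : Summable fun k => ‖c k * a k‖ := (hs a).norm
  apply (norm_tsum_le_tsum_norm hs2).trans
  apply hs2.tsum_le_tsum _ (summable_abs a)
  intro k
  rw [norm_mul, Real.norm_eq_abs, Real.norm_eq_abs]
  exact mul_le_of_le_one_left (abs_nonneg _) (hc k)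

/-- Unit vectors of l1. -/
def ev (n : ℕ) : E1 := lp.single 1 n (1 : ℝ)

lemma norm_ev (n : ℕ) : ‖ev n‖ = 1 := by
  unfold ev
  rw [lp.norm_single (by norm_num)]
  simp

lemma ev_apply (n k : ℕ) : ev n k = if k = n then 1 else 0 := by
  unfold ev
  rw [lp.single_apply]
  by_cases h : k = n
  · subst h; simp
  · simp [h]

lemma opnorm_le (T : E1 →L[ℝ] E1) {c : ℝ} (hc : 0 ≤ c) (h : ∀ n, ‖T (ev n)‖ ≤ c) : ‖T‖ ≤ c := by
  apply T.opNorm_le_bound hc
  intro a
  have h1 := lp.hasSum_single (by norm_num : (1 : ENNReal) ≠ ⊤) a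
  have h2 : HasSum (fun k => T (lp.single 1 k (a k))) (T a) := h1.mapL T
  have h3 : ∀ k, T (lp.single 1 k (a k)) = a k • T (ev k) := by
    intro k
    rw [← map_smul]
    congr 1
    ext j
    simp only [lp.coeFn_smul, Pi.smul_apply, ev_apply, smul_eq_mul]
    rw [lp.single_apply]
    by_cases hj : j = k
    · subst hj; simp
    · simp [hj]
  have h4 : Summable fun k => ‖T (lp.single 1 k (a k))‖ := by
    apply Summable.of_nonneg_of_le (fun _ => norm_nonneg _) _ ((summable_abs a).mul_right c)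
    intro k
    rw [h3, norm_smul, Real.norm_eq_abs]
    exact mul_le_mul_of_nonneg_left (h k) (abs_nonneg _)
  rw [← h2.tsum_eq]
  apply (norm_tsum_le_tsum_norm h4).trans
  rw [norm_eq, ← tsum_mul_left]
  apply h4.tsum_le_tsum _ ((summable_abs a).mul_left c)
  intro k
  rw [h3, norm_smul, Real.norm_eq_abs, mul_comm]
  exact mul_le_mul_of_nonneg_right (h k) (abs_nonneg _)

lemma le_numRadius (T : E1 →L[ℝ] E1) (n : ℕ) : ‖T (ev n)‖ ≤ numRadius E1 T := by
  set b : E1 := T (ev n) with hb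
  obtain ⟨f, hf1, hf2⟩ := exists_functional (fun k => sg (b n) * sg (b k)) (fun k => by
    rw [abs_mul, abs_sg, abs_sg, one_mul])
  have h1 : f (ev n) = 1 := by
    rw [hf2, tsum_eq_single n]
    · rw [ev_apply, if_pos rfl, mul_one, ← sq, ← sq_abs, abs_sg]; norm_num
    · intro k hk
      rw [ev_apply, if_neg hk, mul_zero]
  have h2 : ‖f‖ = 1 := by
    apply le_antisymm hf1
    calc (1 : ℝ) = ‖f (ev n)‖ := by rw [h1]; simp
      _ ≤ ‖f‖ * ‖ev n‖ := f.le_opNorm _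
      _ = ‖f‖ := by rw [norm_ev, mul_one]
  have h3 : |f b| = ‖b‖ := by
    have h4 : f b = sg (b n) * ‖b‖ := by
      rw [hf2, norm_eq, ← tsum_mul_left]
      congr 1
      ext k
      rw [mul_assoc, sg_mul]
    rw [h4, abs_mul, abs_sg, one_mul, abs_norm]
  rw [← h3]
  exact le_csSup (bdd_numRadius T) ⟨ev n, f, norm_ev n, h2, h1, rfl⟩

theorem numIndex_E1 : numIndex E1 = 1 := by
  have hge : ∀ T : E1 →L[ℝ] E1, ‖T‖ = 1 → 1 ≤ numRadius E1 T := by
    intro T hT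
    rw [← hT]
    exact opnorm_le T (numRadius_nonneg T) (le_numRadius T)
  have hid : ‖ContinuousLinearMap.id ℝ E1‖ = 1 := by
    have : Nontrivial E1 := ⟨⟨ev 0, 0, fun h => by
      have := norm_ev 0
      rw [h, norm_zero] at this
      norm_num at this⟩⟩
    exact ContinuousLinearMap.norm_id
  apply le_antisymm
  · calc numIndex E1 ≤ numRadius E1 (ContinuousLinearMap.id ℝ E1) := numIndex_le _ hid
      _ ≤ ‖ContinuousLinearMap.id ℝ E1‖ := numRadius_le _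
      _ = 1 := hid
  · apply le_csInf
    · exact ⟨_, ContinuousLinearMap.id ℝ E1, hid, rfl⟩
    · rintro r ⟨T, hT, rfl⟩
      exact hge T hT

lemma not_finiteDimensional_E1 : ¬ FiniteDimensional ℝ E1 := by
  intro hfd
  have hli : LinearIndependent ℝ ev := by
    rw [linearIndependent_iff']
    intro s g hg k hk
    have h1 := congrArg (fun a : E1 => a k) hg
    simp only [lp.coeFn_zero, Pi.zero_apply] at h1
    rw [lp.coeFn_sum, Finset.sum_apply] at h1
    rw [Finset.sum_eq_single k] at h1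
    · simpa [ev_apply] using h1
    · intro j _ hj
      simp [ev_apply, Ne.symm hj]
    · intro h; exact absurd hk h
  have := hli.finite
  exact not_finite ℕ

end index_ell1

/-- The closed subspace l1 plus zero. -/
def firstSummand (Γ : Type) : Submodule ℝ (E1 × E2 Γ) :=
  LinearMap.ker (LinearMap.snd ℝ E1 (E2 Γ))

/-- The first summand is linearly homeomorphic to l1. -/
def firstEquiv (Γ : Type) : firstSummand Γ ≃L[ℝ] E1 :=
  ContinuousLinearEquiv.equivOfInverse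
    ((ContinuousLinearMap.fst ℝ E1 (E2 Γ)).comp (firstSummand Γ).subtypeL)
    ((ContinuousLinearMap.inl ℝ E1 (E2 Γ)).codRestrict (firstSummand Γ) (fun x => by
      simp [firstSummand]))
    (fun x => by
      apply Subtype.ext
      obtain ⟨⟨a, b⟩, hx⟩ := x
      have hb : b = 0 := hx
      subst hb
      rfl)
    (fun x => rfl)

/-- For every uncountable index set, the real Banach space l1 plus l2 has a closed
infinite-dimensional subspace admitting an equivalent norm of numerical index one, although no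
equivalent norm on the whole space has numerical index one. -/
theorem explicit (Γ : Type) [Uncountable Γ] :
    ∃ Y : Submodule ℝ (E1 × E2 Γ),
      IsClosed (Y : Set (E1 × E2 Γ)) ∧ ¬ FiniteDimensional ℝ Y ∧
      (1 : ℝ) ∈ renormIndices Y ∧ (1 : ℝ) ∉ renormIndices (E1 × E2 Γ) := by
  refine ⟨firstSummand Γ, ?_, ?_, ?_, ?_⟩
  · have h : (firstSummand Γ : Set (E1 × E2 Γ)) = Prod.snd ⁻¹' {0} := by
      ext x
      simp [firstSummand]
    rw [h]
    exact isClosed_singleton.preimage continuous_snd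
  · intro h
    apply not_finiteDimensional_E1
    exact (firstEquiv Γ).toLinearEquiv.finiteDimensional
  · exact ⟨E1, inferInstance, inferInstance, firstEquiv Γ, numIndex_E1.symm⟩
  · rintro ⟨Z, i1, i2, e, he⟩
    exact numIndex_ne_one Γ Z e he.symm

/-- **Main result.** There is a real Banach space `X` with a closed infinite-dimensional subspace
`Y` such that some equivalent norm on `Y` has numerical index one but no equivalent norm on `X`
has numerical index one. -/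
theorem result :
    ∃ (X : Type) (_ : NormedAddCommGroup X) (_ : NormedSpace ℝ X) (Y : Submodule ℝ X),
      CompleteSpace X ∧ IsClosed (Y : Set X) ∧ ¬ FiniteDimensional ℝ Y ∧
      (1 : ℝ) ∈ renormIndices Y ∧ (1 : ℝ) ∉ renormIndices X := by
  obtain ⟨Y, h1, h2, h3, h4⟩ := explicit ℝ
  exact ⟨E1 × E2 ℝ, inferInstance, inferInstance, Y, inferInstance, h1, h2, h3, h4⟩

end

end Pool.Agent.Results.MP_aef148_an.Subspaces
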